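import Pool.Agent.Helper76.SGA.Goals
import Pool.Agent.Helper40.Ru.HasseBasic
import Pool.Agent.Helper75.Ru.PropConst
import Pool.Agent.Helper30.Ru.GenWron
import Pool.Agent.Helper59.Ru.Decomp
import Pool.Agent.Helper54.Ru.Basic54
import Pool.Agent.Helper34.Ru.WronDeg
import Pool.Agent.Helper96.Ru.HeightLocal
import Pool.Agent.Helper15.Ru.DetH
import Pool.Agent.Helper18.Ru.DetIndex
import Pool.Agent.Helper20.Ru.IndMul
import Pool.Agent.Helper40.Ru.RothAlg

/-!
Packet SGA-WRON (project SG, part A): separation of the last variable.  The proof follows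
`Pool.Agent.Helper40.Ru.rothAlg`.
-/

set_option autoImplicit false

open MvPolynomial

namespace Pool.Agent.Helper2.SGA

open Pool.Agent.Helper92.Ru Pool.Agent.Helper42.SG Pool.Agent.Helper40.Ru

theorem wron_aux (hGW : GenWron) (hDec : Decomp) (hWF : WronFact) (hWD : WronDeg)
    (hDH : DetHeight) (hDI : DetIndex) (hIM : IndMul) (hPM : PHMul) : WRON := by
  intro k _ _ m
  refine ⟨(2 * (m + 1) + 1) * Module.finrank ℚ k * Real.log 2, ?_, ?_⟩
  · have : (0:ℝ) ≤ Real.log 2 := Real.log_nonneg (by norm_num)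
    positivity
  intro r D R ρ θ ξ p hp hr hR1 hdR hpD hDR hρ hρr hind
  obtain ⟨s, f, g, hs1, hs2, hf, hg, hfd, hgd, hpe⟩ := hDec k m p hp
  obtain ⟨μ, hμ, hU⟩ := hGW k (Fin m) s f hf
  obtain ⟨ν, hν, hV⟩ := hGW k (Fin 1) s g hg
  have hW := hWF k m s f g μ ν
  rw [← hpe] at hW
  set U : MvPolynomial (Fin m) k := (Matrix.of (fun i j => hasse (μ i) (f j))).det with hUdef
  set V : MvPolynomial (Fin 1) k := (Matrix.of (fun i j => hasse (ν i) (g j))).det with hVdef
  have hrl : (0:ℝ) < r (Fin.last m) := by exact_mod_cast hr (Fin.last m)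
  have hsD : s ≤ D + 1 := hs2.trans (Nat.add_le_add_right hpD 1)
  have hsR : s ≤ R + 1 := hsD.trans (Nat.add_le_add_right hDR 1)
  have hcond : ∀ i j : Fin s, ∑ h, (cmb (μ i) (ν j) h : ℝ) / (r h : ℝ) ≤
      (D : ℝ) / ρ + (j : ℝ) / (r (Fin.last m) : ℝ) := by
    intro i j
    rw [Fin.sum_univ_castSucc, cmb_last]
    simp only [cmb_castSucc]
    have h1 : ∑ h : Fin m, (μ i h : ℝ) / (r (Fin.castSucc h) : ℝ) ≤ (D : ℝ) / ρ := by
      have h2 : ∑ h : Fin m, (μ i h : ℝ) / (r (Fin.castSucc h) : ℝ) ≤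
          ∑ h : Fin m, (μ i h : ℝ) / ρ := by
        refine Finset.sum_le_sum fun h _ => ?_
        exact div_le_div_of_nonneg_left (Nat.cast_nonneg _) hρ (hρr h)
      rw [← Finset.sum_div] at h2
      refine h2.trans ?_
      refine div_le_div_of_nonneg_right ?_ hρ.le
      have h4 : ∑ h : Fin m, μ i h ≤ D := by
        have h5 := hμ i
        have h6 := i.2
        omega
      exact_mod_cast h4
    have h2 : (ν j 0 : ℝ) / (r (Fin.last m) : ℝ) ≤ (j : ℝ) / (r (Fin.last m) : ℝ) := by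
      refine div_le_div_of_nonneg_right ?_ hrl.le
      have h3 := hν j
      rw [Fin.sum_univ_one] at h3
      exact_mod_cast h3
    linarith
  have hDI' := hDI k (Fin (m + 1)) s r ξ θ
    (fun j => (D : ℝ) / ρ + (j : ℝ) / (r (Fin.last m) : ℝ)) p
    (fun i j => cmb (μ i) (ν j)) hind hcond
  have hDH' := hDH k (Fin (m + 1)) s R p (fun i j => cmb (μ i) (ν j)) hp hR1 hsR hdR
  rw [hW] at hDI' hDH'
  rw [hPM k m U V hU hV] at hDH'
  obtain ⟨a, b, ha, hb, hab, hIU, hIV⟩ := hIM k m r ξ _ U V hU hV hDI'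
  refine ⟨s, U, V, hs1, hsD, hU, hV, ?_, ?_, ?_, a, b, ha, hb, ?_, hIU, hIV⟩
  · intro h
    exact hWD k (Fin m) s f μ h _ (fun j => hfd j h)
  · exact hWD k (Fin 1) s g ν 0 _ (fun j => (hgd j).trans hpD)
  · have hUpos : 0 < PH U := Height.mulHeight_pos _
    have hVpos : 0 < PH V := Height.mulHeight_pos _
    have hppos : 0 < PH p := Height.mulHeight_pos _
    rw [← Real.log_mul hUpos.ne' hVpos.ne']
    have h1 := Real.log_le_log (mul_pos hUpos hVpos) hDH'
    rw [Real.log_mul (x := 2 ^ ((2 * Fintype.card (Fin (m + 1)) + 1) * R * s *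
      Module.finrank ℚ k)) (by positivity) (by positivity), Real.log_pow, Real.log_pow,
      Fintype.card_fin] at h1
    refine h1.trans (le_of_eq ?_)
    push_cast
    ring
  · refine le_trans (le_of_eq ?_) hab
    refine Finset.sum_congr rfl fun j _ => ?_
    rw [sub_add_eq_sub_sub]

theorem wron : WRON :=
  wron_aux (Pool.Agent.Helper30.Ru.genWron Pool.Agent.Helper40.Ru.hasseBasic
      Pool.Agent.Helper75.Ru.propConst)
    Pool.Agent.Helper59.Ru.decomp
    Pool.Agent.Helper54.Ru.wronFact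
    Pool.Agent.Helper34.Ru.wronDeg
    (Pool.Agent.Helper15.Ru.detHeight Pool.Agent.Helper40.Ru.hasseBasic
      Pool.Agent.Helper96.Ru.heightLocal)
    (Pool.Agent.Helper18.Ru.detIndex Pool.Agent.Helper40.Ru.hasseBasic)
    Pool.Agent.Helper20.Ru.indMul
    Pool.Agent.Helper54.Ru.phMul

end Pool.Agent.Helper2.SGA
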